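import Mathlib
import Pool.Agent.Lib.MP_938ce2_ag_h67.Hom

/-!
Isotypic numbers of a semisimple module, and a bound for the multiplicity of a submodule of a
transitive permutation module.
-/

set_option autoImplicit false

namespace Pool.Agent.Lib.MP_938ce2_ag_h85d

open Finset Module
open Pool.Agent.Lib.MP_938ce2_ag_h67

section

variable {K R : Type} [Field K] [Ring R] [Algebra K R]

lemma finite_hom {S W : Type} [AddCommGroup S] [Module K S] [Module R S] [IsScalarTower K R S]
    [Module.Finite K S] [AddCommGroup W] [Module K W] [Module R W] [IsScalarTower K R W]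
    [Module.Finite K W] : Module.Finite K (S →ₗ[R] W) := by
  let f : (S →ₗ[R] W) →ₗ[K] (S →ₗ[K] W) :=
    { toFun := fun φ => φ.restrictScalars K
      map_add' := fun _ _ => rfl
      map_smul' := fun _ _ => rfl }
  refine Module.Finite.of_injective f ?_
  intro φ ψ h
  apply LinearMap.ext
  intro s
  exact congrArg (fun g : S →ₗ[K] W => g s) h

lemma finrank_hom_fun {S W : Type} [AddCommGroup S] [Module K S] [Module R S]
    [IsScalarTower K R S] [Module.Finite K S] [AddCommGroup W] [Module K W] [Module R W]
    [IsScalarTower K R W] (k : ℕ) (e : W ≃ₗ[R] (Fin k → S)) :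
    finrank K (S →ₗ[R] W) = k * finrank K (S →ₗ[R] S) := by
  have : Module.Finite K (S →ₗ[R] S) := finite_hom
  let F : (S →ₗ[R] W) ≃ₗ[K] (Fin k → (S →ₗ[R] S)) :=
    { toFun := fun φ i => (LinearMap.proj i).comp (e.toLinearMap.comp φ)
      invFun := fun ψ => e.symm.toLinearMap.comp (LinearMap.pi ψ)
      map_add' := by
        intro φ ψ
        funext i
        apply LinearMap.ext
        intro s
        show e (φ s + ψ s) i = e (φ s) i + e (ψ s) i
        rw [map_add]
        rfl
      map_smul' := by
        intro a φ
        funext i
        apply LinearMap.ext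
        intro s
        show e (a • φ s) i = a • e (φ s) i
        have h : e (a • φ s) = a • e (φ s) :=
          LinearMap.map_smul_of_tower e.toLinearMap a (φ s)
        rw [h]
        rfl
      left_inv := by
        intro φ
        apply LinearMap.ext
        intro s
        show e.symm (fun i => e (φ s) i) = φ s
        exact e.symm_apply_apply (φ s)
      right_inv := by
        intro ψ
        funext i
        apply LinearMap.ext
        intro s
        show e (e.symm (fun i => ψ i s)) i = ψ i s
        rw [e.apply_symm_apply] }
  rw [F.finrank_eq, Module.finrank_pi_fintype, Finset.sum_const, Finset.card_univ,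
    Fintype.card_fin, smul_eq_mul]

variable {V : Type} [AddCommGroup V] [Module K V] [Module R V] [IsScalarTower K R V]

lemma finrank_fun [Module.Finite K V] {S W : Submodule R V} (k : ℕ) (e : W ≃ₗ[R] (Fin k → S)) :
    finrank K W = k * finrank K S := by
  have : Module.Finite K S := Module.Finite.of_injective (S.subtype.restrictScalars K)
    Subtype.val_injective
  have e' : W ≃ₗ[K] (Fin k → S) := e.restrictScalars K
  rw [e'.finrank_eq, Module.finrank_pi_fintype, Finset.sum_const, Finset.card_univ,
    Fintype.card_fin, smul_eq_mul]

lemma finrank_hom_component (S : Submodule R V) [IsSimpleModule R S] :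
    finrank K (S →ₗ[R] V) = finrank K (S →ₗ[R] isotypicComponent R V S) := by
  have h : ∀ (φ : S →ₗ[R] V) (s : S), φ s ∈ isotypicComponent R V S := by
    intro φ s
    have h1 : LinearMap.range φ ≤ isotypicComponent R V S := by
      obtain inj | eq := φ.injective_or_eq_zero
      · exact le_sSup ⟨(LinearEquiv.ofInjective _ inj).symm⟩
      · rw [eq, LinearMap.range_zero]
        exact bot_le
    exact h1 ⟨s, rfl⟩
  let F : (S →ₗ[R] V) ≃ₗ[K] (S →ₗ[R] isotypicComponent R V S) :=
    { toFun := fun φ => LinearMap.codRestrict _ φ (h φ)
      invFun := fun ψ => (isotypicComponent R V S).subtype.comp ψ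
      map_add' := fun φ ψ => rfl
      map_smul' := fun a φ => rfl
      left_inv := fun φ => rfl
      right_inv := fun ψ => rfl }
  exact F.finrank_eq

/-- The sum of the dimensions of independent submodules. -/
lemma sum_finrank_le [Module.Finite K V] {ι : Type} [Fintype ι] (p : ι → Submodule R V)
    (hp : iSupIndep p) : ∑ i, finrank K (p i) ≤ finrank K V := by
  classical
  have : ∀ i, Module.Finite K (p i) := fun i =>
    Module.Finite.of_injective ((p i).subtype.restrictScalars K) Subtype.val_injective
  have hinj := hp.dfinsupp_lsum_injective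
  let L : (∀ i, p i) →ₗ[K] V :=
    { toFun := fun f => ∑ i, (f i : V)
      map_add' := by
        intro f g
        rw [← Finset.sum_add_distrib]
        rfl
      map_smul' := by
        intro a f
        rw [RingHom.id_apply, Finset.smul_sum]
        rfl }
  have hL : Function.Injective L := by
    intro f g hfg
    have h1 : ∀ f : (∀ i, p i), L f = DFinsupp.lsum ℕ (fun i => (p i).subtype)
        (DFinsupp.equivFunOnFintype.symm f) := by
      intro f
      rw [DFinsupp.lsum_apply_apply, DFinsupp.sumAddHom_apply, DFinsupp.sum_eq_sum_fintype]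
      · rfl
      · intro i
        exact map_zero _
    rw [h1, h1] at hfg
    exact DFinsupp.equivFunOnFintype.symm.injective (hinj hfg)
  have h2 := LinearMap.finrank_le_finrank_of_injective hL
  rwa [Module.finrank_pi_fintype] at h2

end

/-- The isotypic components of a semisimple module: representatives of the simple submodules,
their multiplicities and dimensions. -/
theorem isotypic_numbers {K R V : Type} [Field K] [Ring R] [Algebra K R] [AddCommGroup V]
    [Module K V] [Module R V] [IsScalarTower K R V] [Module.Finite K V] [IsSemisimpleModule R V] :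
    ∃ (ι : Type) (_ : Fintype ι) (S : ι → Submodule R V) (k : ι → ℕ),
      (∀ i, IsSimpleModule R (S i)) ∧
      (∀ M : Submodule R V, IsSimpleModule R M → ∃ i, Nonempty (M ≃ₗ[R] S i)) ∧
      (∀ i, 1 ≤ k i) ∧
      (∀ i, finrank K (S i →ₗ[R] V) = k i * finrank K (S i →ₗ[R] S i)) ∧
      (∑ i, k i * finrank K (S i) ≤ finrank K V) := by
  classical
  have : IsNoetherian R V := isNoetherian_of_tower K inferInstance
  have : Fintype (isotypicComponents R V) := Fintype.ofFinite _
  choose S hS using fun c : isotypicComponents R V => c.2
  have hsim : ∀ c, IsSimpleModule R (S c) := fun c => (hS c).1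
  have hk : ∀ c : isotypicComponents R V, ∃ k : ℕ,
      Nonempty ((c : Submodule R V) ≃ₗ[R] (Fin k → S c)) := by
    intro c
    have h1 : IsIsotypicOfType R (c : Submodule R V) (S c) := by
      have := IsIsotypicOfType.isotypicComponent R V (S c)
      rw [← (hS c).2] at this
      exact this
    exact h1.linearEquiv_fun
  choose k hk using hk
  refine ⟨isotypicComponents R V, inferInstance, S, k, hsim, ?_, ?_, ?_, ?_⟩
  · intro M hM
    let c : isotypicComponents R V := ⟨isotypicComponent R V M, M, hM, rfl⟩
    refine ⟨c, ?_⟩
    have h1 : M ≤ isotypicComponent R V (S c) := by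
      rw [← (hS c).2]
      exact M.le_isotypicComponent
    exact isIsotypicOfType_submodule_iff.mp (IsIsotypicOfType.isotypicComponent R V (S c)) M h1
  · intro c
    obtain ⟨e⟩ := hk c
    by_contra h
    have h0 : k c = 0 := by omega
    have : Nontrivial (c : Submodule R V) := inferInstance
    have : IsEmpty (Fin (k c)) := by rw [h0]; infer_instance
    exact not_subsingleton _ (e.toEquiv.subsingleton)
  · intro c
    obtain ⟨e⟩ := hk c
    have : Module.Finite K (S c) := Module.Finite.of_injective ((S c).subtype.restrictScalars K)
      Subtype.val_injective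
    rw [finrank_hom_component (S c)]
    have h1 := (hS c).2
    have e' : (isotypicComponent R V (S c)) ≃ₗ[R] (Fin (k c) → S c) :=
      (LinearEquiv.ofEq _ _ h1.symm).trans e
    exact finrank_hom_fun (k c) e'
  · have h1 : ∀ c : isotypicComponents R V,
        finrank K (c : Submodule R V) = k c * finrank K (S c) := by
      intro c
      obtain ⟨e⟩ := hk c
      exact finrank_fun (k c) e
    have h2 : iSupIndep (fun c : isotypicComponents R V => (c : Submodule R V)) :=
      (sSupIndep_iff (isotypicComponents R V)).mp (sSupIndep_isotypicComponents R V)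
    calc ∑ c, k c * finrank K (S c) = ∑ c : isotypicComponents R V,
        finrank K (c : Submodule R V) := Finset.sum_congr rfl fun c _ => (h1 c).symm
      _ ≤ finrank K V := sum_finrank_le _ h2

/-- A homomorphism to a transitive permutation module is given by its values at one point. -/
theorem finrank_hom_le {P Ω : Type} [Group P] [Fintype P] [Fintype Ω] [MulAction P Ω]
    [MulAction.IsPretransitive P Ω] [Nonempty Ω]
    (S : Submodule (MonoidAlgebra ℚ P) (VV ℚ P Ω)) :
    finrank ℚ (S →ₗ[MonoidAlgebra ℚ P] VV ℚ P Ω) ≤ finrank ℚ S := by
  obtain ⟨x0⟩ := (inferInstance : Nonempty Ω)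
  have : Module.Finite ℚ S := Module.Finite.of_injective (S.subtype.restrictScalars ℚ)
      Subtype.val_injective
  let F : (S →ₗ[MonoidAlgebra ℚ P] VV ℚ P Ω) →ₗ[ℚ] Module.Dual ℚ S :=
    { toFun := fun φ =>
        { toFun := fun s => ev (φ s) x0
          map_add' := by
            intro s t
            rw [map_add, ev_add]
          map_smul' := by
            intro a s
            rw [LinearMap.map_smul_of_tower, ev_smul]
            rfl }
      map_add' := fun φ ψ => rfl
      map_smul' := fun a φ => rfl }
  have hF : Function.Injective F := by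
    rw [injective_iff_map_eq_zero]
    intro φ hφ
    have h0 : ∀ s : S, ev (φ s) x0 = 0 := fun s =>
      congrArg (fun g : Module.Dual ℚ S => g s) hφ
    apply LinearMap.ext
    intro s
    apply ev_ext
    intro x
    obtain ⟨σ, hσ⟩ := MulAction.exists_smul_eq P x0 x
    have h1 := h0 (MonoidAlgebra.single σ⁻¹ (1 : ℚ) • s)
    rw [map_smul, ev_single, inv_inv, one_mul, hσ] at h1
    rw [h1]
    rfl
  calc finrank ℚ (S →ₗ[MonoidAlgebra ℚ P] VV ℚ P Ω) ≤ finrank ℚ (Module.Dual ℚ S) :=
        LinearMap.finrank_le_finrank_of_injective hF
    _ = finrank ℚ S := Subspace.dual_finrank_eq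

end Pool.Agent.Lib.MP_938ce2_ag_h85d
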