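import Mathlib
import Pool.Agent.Lib.MP_938ce2_ag_h60.GSet
import Pool.Agent.Lib.MP_938ce2_ag_h67.Char
import Pool.Agent.Lib.MP_938ce2_ag_h71.SylowOdd

/-!
From subsets of one orbit of a group of odd order to CM types.
-/

set_option autoImplicit false

namespace Pool.Agent.Lib.MP_938ce2_ag_h85d

open Finset Real
open Pool.Agent.Lib.MP_938ce2_ag_h67 (sg)
open Pool.Agent.Lib.MP_938ce2_ag_h60 (CMType Nondeg GeneratedByDivisors generatedByDivisors_of_nondeg)

section

variable {Γ X : Type} [Group Γ] [MulAction Γ X]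

/-- an element of odd order does not exchange conjugate points -/
lemma ne_conj (c : Γ) (hcc : ∀ γ : Γ, c * γ = γ * c) (hc2 : c * c = 1) (hcx : ∀ x : X, c • x ≠ x)
    (P : Subgroup Γ) [Finite P] (hodd : Odd (Nat.card P)) (σ : Γ) (hσ : σ ∈ P) (y : X) : σ • y ≠ c • y := by
  intro h
  have h2 : (σ ^ 2) • y = y := by
    rw [pow_two, mul_smul, h, ← mul_smul, ← hcc, mul_smul, h, ← mul_smul, hc2, one_smul]
  obtain ⟨s, hs⟩ := hodd
  have hpow : σ ^ Nat.card P = 1 := by
    have h3 : (⟨σ, hσ⟩ : P) ^ Nat.card P = 1 := pow_card_eq_one'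
    have h5 := congrArg Subtype.val h3
    rwa [SubmonoidClass.coe_pow, OneMemClass.coe_one] at h5
  have hσs : σ = (σ ^ 2) ^ (s + 1) := by
    rw [← pow_mul]
    have : 2 * (s + 1) = Nat.card P + 1 := by omega
    rw [this, pow_succ, hpow, one_mul]
  have hfix : ∀ k : ℕ, ((σ ^ 2) ^ k) • y = y := by
    intro k
    induction k with
    | zero => simp
    | succ k ih => rw [pow_succ, mul_smul, h2, ih]
  have h4 : σ • y = y := by
    nth_rewrite 1 [hσs]
    exact hfix _
  rw [h] at h4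
  exact hcx y h4

variable [Fintype X]

open Classical in
/-- the sum over a CM type in terms of one orbit representing all pairs -/
lemma sum_type_orbit (c : Γ) (hc2 : c * c = 1) (O : Set X) [Fintype O]
    (hO1 : ∀ x ∈ O, c • x ∉ O) (hO2 : ∀ x, x ∈ O ∨ c • x ∈ O) {Φ : Finset X} (hΦ : CMType c Φ)
    (h : X → ℤ) (hodd : ∀ x, h (c • x) = - h x) :
    ∑ φ ∈ Φ, h φ = ∑ x : O, sg (univ.filter fun ω : O => (ω : X) ∈ Φ) x * h x := by
  have hcc : ∀ x : X, c • c • x = x := fun x => by rw [← mul_smul, hc2, one_smul]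
  rw [← Finset.sum_filter_add_sum_filter_not Φ (fun x => x ∈ O)]
  have h1 : ∑ x : O, sg (univ.filter fun ω : O => (ω : X) ∈ Φ) x * h x
      = ∑ x ∈ univ.filter (fun x : X => x ∈ O), (if x ∈ Φ then 1 else -1) * h x := by
    rw [← Finset.sum_subtype_eq_sum_filter]
    · have : ((univ : Finset X).subtype fun x => x ∈ O) = (univ : Finset O) := by
        ext x; simp
      rw [this]
      refine Finset.sum_congr rfl fun x _ => ?_
      unfold sg
      simp
  rw [h1]
  have h2 : ∑ x ∈ univ.filter (fun x : X => x ∈ O), (if x ∈ Φ then (1 : ℤ) else -1) * h x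
      = ∑ x ∈ (univ.filter (fun x : X => x ∈ O)).filter (fun x => x ∈ Φ), h x
        + ∑ x ∈ (univ.filter (fun x : X => x ∈ O)).filter (fun x => x ∉ Φ), - h x := by
    rw [← Finset.sum_filter_add_sum_filter_not (univ.filter (fun x : X => x ∈ O)) (fun x => x ∈ Φ)]
    congr 1
    · refine Finset.sum_congr rfl fun x hx => ?_
      rw [if_pos (Finset.mem_filter.mp hx).2, one_mul]
    · refine Finset.sum_congr rfl fun x hx => ?_
      rw [if_neg (Finset.mem_filter.mp hx).2]
      ring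
  rw [h2]
  congr 1
  · refine Finset.sum_congr ?_ fun _ _ => rfl
    ext x
    simp only [Finset.mem_filter, Finset.mem_univ, true_and]
    exact and_comm
  · refine Finset.sum_nbij' (fun x => c • x) (fun x => c • x) ?_ ?_ ?_ ?_ ?_
    · intro x hx
      simp only [Finset.mem_filter, Finset.mem_univ, true_and] at hx ⊢
      refine ⟨(hO2 x).resolve_left hx.2, ?_⟩
      exact (hΦ x).mp hx.1
    · intro x hx
      simp only [Finset.mem_filter, Finset.mem_univ, true_and] at hx ⊢
      refine ⟨?_, hO1 x hx.1⟩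
      by_contra h'
      exact hx.2 ((hΦ x).mpr h')
    · intro x _; exact hcc x
    · intro x _; exact hcc x
    · intro x _
      rw [hodd, neg_neg]

end

/-- the input -/
def BadCount (C : ℝ) : Prop :=
  ∀ (P : Type) [Group P] [Fintype P] [Group.IsNilpotent P]
    (Ω : Type) [Fintype Ω] [DecidableEq Ω] [MulAction P Ω] [MulAction.IsPretransitive P Ω],
    (Fintype.card P).Coprime 6 → 2 ≤ Fintype.card Ω →
    (Nat.card {η : Finset Ω // ∃ f : Ω → ℤ, f ≠ 0 ∧ ∀ σ : P, ∑ x, sg η x * f (σ • x) = 0} : ℝ)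
      ≤ C * log (Fintype.card Ω) ^ 3 / Fintype.card Ω * 2 ^ Fintype.card Ω

theorem main_of {C : ℝ} (hC : BadCount C) (Γ X : Type) [Group Γ] [Fintype Γ] [MulAction Γ X]
    [Fintype X] (c : Γ) (g : ℕ) (P : Subgroup Γ)
    (hcc : ∀ γ : Γ, c * γ = γ * c) (hc2 : c * c = 1) (hcx : ∀ x : X, c • x ≠ x)
    (hX : Fintype.card X = 2 * g) (hg : 2 ≤ g)
    (hnil : Group.IsNilpotent P) (hcop : (Nat.card P).Coprime 6)
    (htr : ∀ x y : X, ∃ σ ∈ P, σ • x = y ∨ σ • x = c • y) :
    (Nat.card {Φ : Finset X // CMType c Φ ∧ ¬ GeneratedByDivisors Γ Φ} : ℝ)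
      ≤ C * log g ^ 3 / g * 2 ^ g := by
  classical
  have hne : Nonempty X := by
    rw [← Fintype.card_pos_iff]
    omega
  obtain ⟨x0⟩ := hne
  have hodd : Odd (Nat.card P) := by
    have h2 : (Nat.card P).Coprime 2 := Nat.Coprime.coprime_dvd_right (by norm_num) hcop
    exact Nat.coprime_two_right.mp h2
  set O : Set X := MulAction.orbit P x0 with hO
  have hsm : ∀ (σ : P) (x : X), σ • x = (σ : Γ) • x := fun _ _ => rfl
  have hO2 : ∀ x, x ∈ O ∨ c • x ∈ O := by
    intro x
    obtain ⟨σ, hσ, h | h⟩ := htr x0 x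
    · exact Or.inl ⟨⟨σ, hσ⟩, h⟩
    · exact Or.inr ⟨⟨σ, hσ⟩, h⟩
  have hO1 : ∀ x ∈ O, c • x ∉ O := by
    rintro x ⟨a, ha⟩ ⟨b, hb⟩
    have ha' : (a : Γ) • x0 = x := ha
    have hb' : (b : Γ) • x0 = c • x := hb
    refine ne_conj c hcc hc2 hcx P hodd ((b : Γ) * (a : Γ)⁻¹) (P.mul_mem b.2 (P.inv_mem a.2)) x ?_
    rw [mul_smul, ← ha', inv_smul_smul, hb', ← ha']
  have hFO : Fintype O := Fintype.ofFinite _
  have hcardO : Fintype.card O = g := by
    have h1 : Fintype.card O + Fintype.card O = Fintype.card X := by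
      rw [← Fintype.card_sum]
      refine Fintype.card_congr
        { toFun := fun s => Sum.elim (fun x : O => (x : X)) (fun x : O => c • (x : X)) s
          invFun := fun x => if h : x ∈ O then Sum.inl ⟨x, h⟩ else
            Sum.inr ⟨c • x, (hO2 x).resolve_left h⟩
          left_inv := ?_
          right_inv := ?_ }
      · rintro (x | x)
        · simp
        · have hx : c • (x : X) ∉ O := hO1 x x.2
          simp only [Sum.elim_inr, hx, dif_neg, not_false_iff]
          congr 1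
          apply Subtype.ext
          change c • c • (x : X) = x
          rw [← mul_smul, hc2, one_smul]
      · intro x
        by_cases h : x ∈ O
        · simp [h]
        · simp only [h, dif_neg, not_false_iff, Sum.elim_inr]
          rw [← mul_smul, hc2, one_smul]
    omega
  have hFP : Fintype P := Fintype.ofFinite _
  have hcopF : (Fintype.card P).Coprime 6 := by
    rw [← Nat.card_eq_fintype_card]; exact hcop
  have hbc := hC P O hcopF (by rw [hcardO]; exact hg)
  rw [hcardO] at hbc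
  refine le_trans ?_ hbc
  have hinj : Function.Injective (fun Φ : {Φ : Finset X // CMType c Φ ∧ ¬ GeneratedByDivisors Γ Φ} =>
      (⟨univ.filter fun ω : O => (ω : X) ∈ Φ.1, by
        have hnd : ¬ Nondeg c Φ.1 := fun h =>
          Φ.2.2 (generatedByDivisors_of_nondeg hcc hc2 hcx Φ.2.1 h)
        unfold Nondeg at hnd
        push Not at hnd
        obtain ⟨h, hodd', hsum, x1, hx1⟩ := hnd
        refine ⟨fun ω => h ω, ?_, fun σ => ?_⟩
        · intro h0
          have hz : ∀ ω : O, h ω = 0 := fun ω => congrFun h0 ω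
          rcases hO2 x1 with hx | hx
          · exact hx1 (hz ⟨x1, hx⟩)
          · have := hz ⟨c • x1, hx⟩
            apply hx1
            change h (c • x1) = 0 at this
            rw [hodd'] at this
            omega
        · have h1 := sum_type_orbit c hc2 O hO1 hO2 Φ.2.1 (fun x => h ((σ : Γ) • x)) (fun x => by
            change h ((σ : Γ) • c • x) = - h ((σ : Γ) • x)
            rw [← mul_smul, ← hcc, mul_smul, hodd'])
          rw [hsum] at h1
          exact h1.symm⟩ :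
        {η : Finset O // ∃ f : O → ℤ, f ≠ 0 ∧ ∀ σ : P, ∑ x, sg η x * f (σ • x) = 0})) := by
    intro Φ Ψ h
    apply Subtype.ext
    have h1 : (univ.filter fun ω : O => (ω : X) ∈ Φ.1) = univ.filter fun ω : O => (ω : X) ∈ Ψ.1 :=
      congrArg Subtype.val h
    have h2 : ∀ ω : O, (ω : X) ∈ Φ.1 ↔ (ω : X) ∈ Ψ.1 := by
      intro ω
      have := Finset.ext_iff.mp h1 ω
      simpa using this
    ext x
    rcases hO2 x with hx | hx
    · exact h2 ⟨x, hx⟩
    · rw [Φ.2.1 x, Ψ.2.1 x]
      exact not_congr (h2 ⟨c • x, hx⟩)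
  exact_mod_cast Nat.card_le_card_of_injective _ hinj

theorem main_prime_power_of {C : ℝ} (hC : BadCount C) (Γ X : Type) [Group Γ] [Fintype Γ]
    [MulAction Γ X] [Fintype X] [MulAction.IsPretransitive Γ X] (c : Γ) (p k : ℕ) (hp : p.Prime)
    (hp5 : 5 ≤ p) (hk : 1 ≤ k)
    (hcc : ∀ γ : Γ, c * γ = γ * c) (hc2 : c * c = 1) (hcx : ∀ x : X, c • x ≠ x)
    (hX : Fintype.card X = 2 * p ^ k) :
    (Nat.card {Φ : Finset X // CMType c Φ ∧ ¬ GeneratedByDivisors Γ Φ} : ℝ)
      ≤ C * log (p ^ k : ℕ) ^ 3 / (p ^ k : ℕ) * 2 ^ (p ^ k) := by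
  classical
  have : Fact p.Prime := ⟨hp⟩
  obtain ⟨P⟩ : Nonempty (Sylow p Γ) := inferInstance
  refine main_of hC Γ X c (p ^ k) P.1 hcc hc2 hcx hX ?_ ?_ ?_ ?_
  · calc 2 ≤ p ^ 1 := by rw [pow_one]; omega
      _ ≤ p ^ k := Nat.pow_le_pow_right (by omega) hk
  · exact IsPGroup.isNilpotent P.isPGroup'
  · obtain ⟨n, hn⟩ := IsPGroup.iff_card.mp P.isPGroup'
    have hn' : Nat.card P.1 = p ^ n := hn
    rw [hn']
    apply Nat.Coprime.pow_left
    rw [Nat.Prime.coprime_iff_not_dvd hp]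
    intro h
    have := Nat.le_of_dvd (by norm_num) h
    interval_cases p
    · omega
    · norm_num at hp
  · intro x y
    rcases Pool.Agent.Lib.MP_938ce2_ag_h71.orbit_or_conj c hcc hc2 hcx p k (by omega) hX P x y with h | h
    · obtain ⟨σ, hσ⟩ := h
      exact ⟨σ, σ.2, Or.inl hσ⟩
    · obtain ⟨σ, hσ⟩ := h
      exact ⟨σ, σ.2, Or.inr hσ⟩

end Pool.Agent.Lib.MP_938ce2_ag_h85d
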