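import Mathlib

/-!
Numerical part: summation of the bounds for the constituents.
-/

set_option autoImplicit false

namespace Pool.Agent.Lib.MP_938ce2_ag_h85d

open Finset Real Filter

/-- a prime in a range which does not divide a given number -/
lemma exists_good_prime {g n : ℕ} (hn : 1 ≤ n) (hg : 0 < g) (h : g < n ^ 6) :
    ∃ q : ℕ, q.Prime ∧ ¬ q ∣ g ∧ n < q ∧ q ≤ 64 * n := by
  classical
  have hB : ∀ j : ℕ, ∃ p, Nat.Prime p ∧ 2 ^ j * n < p ∧ p ≤ 2 * (2 ^ j * n) := fun j =>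
    Nat.exists_prime_lt_and_le_two_mul _ (by positivity)
  choose p hp hlt hle using hB
  by_contra hcon
  push Not at hcon
  have hdiv : ∀ j ∈ Finset.range 6, p j ∣ g := by
    intro j hj
    rw [Finset.mem_range] at hj
    by_contra hnd
    have h1 : n < p j := by
      refine lt_of_le_of_lt ?_ (hlt j)
      exact Nat.le_mul_of_pos_left n (by positivity)
    have h2 := hcon (p j) (hp j) hnd h1
    have h3 : 2 ^ j ≤ 2 ^ 5 := Nat.pow_le_pow_right (by norm_num) (by omega)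
    have h4 : 2 * (2 ^ j * n) ≤ 64 * n := by
      have := Nat.mul_le_mul_right n h3
      omega
    have h5 := hle j
    omega
  have hinj : ∀ i ∈ Finset.range 6, ∀ j ∈ Finset.range 6, i ≠ j → (p i).Coprime (p j) := by
    intro i _ j _ hij
    rw [Nat.coprime_primes (hp i) (hp j)]
    intro heq
    rcases lt_or_gt_of_ne hij with h1 | h1
    · have h2 : 2 ^ (i + 1) ≤ 2 ^ j := Nat.pow_le_pow_right (by norm_num) h1
      have h3 := hle i
      have h4 := hlt j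
      have h5 : 2 * (2 ^ i * n) = 2 ^ (i + 1) * n := by ring
      have h6 := Nat.mul_le_mul_right n h2
      omega
    · have h2 : 2 ^ (j + 1) ≤ 2 ^ i := Nat.pow_le_pow_right (by norm_num) h1
      have h3 := hle j
      have h4 := hlt i
      have h5 : 2 * (2 ^ j * n) = 2 ^ (j + 1) * n := by ring
      have h6 := Nat.mul_le_mul_right n h2
      omega
  have hprod : ∏ j ∈ Finset.range 6, p j ∣ g :=
    Finset.prod_dvd_of_isRelPrime (fun i hi j hj hij =>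
      Nat.coprime_iff_isRelPrime.mp (hinj i hi j hj hij)) hdiv
  have h1 := Nat.le_of_dvd hg hprod
  have h2 : n ^ 6 ≤ ∏ j ∈ Finset.range 6, p j := by
    have h3 : ∏ _j ∈ Finset.range 6, n ≤ ∏ j ∈ Finset.range 6, p j := by
      refine Finset.prod_le_prod' fun j _ => ?_
      refine le_trans ?_ (hlt j).le
      exact Nat.le_mul_of_pos_left n (by positivity)
    rwa [Finset.prod_const, Finset.card_range] at h3
  omega

/-- the range of large `g` -/
lemma eventually_large : ∃ g0 : ℕ, 3 ≤ g0 ∧ ∀ g : ℕ, g0 ≤ g →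
    (2 : ℝ) ^ 168 * (g : ℝ) ^ 4 < ((g : ℝ) * log 2 / (4 * log g ^ 3)) ^ 6 := by
  have h1 : Tendsto (fun x : ℝ => log x ^ 18 / x ^ (1 : ℝ)) atTop (nhds 0) := by
    have := (isLittleO_log_rpow_rpow_atTop (18 : ℝ) (show (0 : ℝ) < 1 by norm_num)).tendsto_div_nhds_zero
    refine this.congr' ?_
    filter_upwards with x
    norm_cast
  have hl2 : 0 < log 2 := Real.log_pos (by norm_num)
  have hε : 0 < (log 2 / 4) ^ 6 / (2 : ℝ) ^ 168 := by positivity
  have h2 := (h1.eventually_lt_const hε).and (eventually_ge_atTop (3 : ℝ))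
  obtain ⟨x0, hx0⟩ := eventually_atTop.mp h2
  refine ⟨max 3 ⌈x0⌉₊, le_max_left _ _, fun g hg => ?_⟩
  have hgx : x0 ≤ g := (Nat.le_ceil x0).trans (by exact_mod_cast (le_max_right _ _).trans hg)
  obtain ⟨h3, h4⟩ := hx0 g hgx
  have hg0 : (0 : ℝ) < g := by linarith
  have hlg : 0 < log (g : ℝ) := Real.log_pos (by linarith)
  rw [Real.rpow_one, div_lt_div_iff₀ hg0 (by positivity)] at h3
  have e1 : ((g : ℝ) * log 2 / (4 * log g ^ 3)) ^ 6 = (g : ℝ) ^ 6 * (log 2 / 4) ^ 6 / log g ^ 18 := by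
    rw [div_pow, mul_pow, mul_pow, div_pow]
    field_simp
  rw [e1, lt_div_iff₀ (by positivity)]
  have h5 : (1 : ℝ) ≤ g := by linarith
  calc (2 : ℝ) ^ 168 * (g : ℝ) ^ 4 * log g ^ 18 = (log g ^ 18 * 2 ^ 168) * (g : ℝ) ^ 4 := by ring
    _ < ((log 2 / 4) ^ 6 * g) * (g : ℝ) ^ 4 := by gcongr
    _ = (g : ℝ) ^ 5 * (log 2 / 4) ^ 6 := by ring
    _ ≤ (g : ℝ) ^ 6 * (log 2 / 4) ^ 6 := by
        have : (g : ℝ) ^ 5 ≤ (g : ℝ) ^ 6 := pow_le_pow_right₀ h5 (by norm_num)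
        gcongr

/-- one constituent of small defect -/
lemma one_term {g m e : ℕ} {N : ℝ} (hg3 : 3 ≤ g)
    (hlarge : (2 : ℝ) ^ 168 * (g : ℝ) ^ 4 < ((g : ℝ) * log 2 / (4 * log g ^ 3)) ^ 6)
    (hm1 : 1 ≤ m) (hmg : m ≤ g) (he4 : 4 ≤ e) (hm2 : (m : ℝ) ^ 2 ≤ g * (4 * log g / log 2))
    (hN : ∀ q : ℕ, q.Prime → q ≠ 2 → ¬ q ∣ g →
      N ≤ (1 + ((q : ℝ) - 1) * exp (-(2 * g / (m * (q : ℝ) ^ 2)))) ^ m / ((q : ℝ) - 1) ^ e) :
    N ≤ exp 1 * 128 ^ 4 * (m : ℝ) ^ 2 * log g ^ 2 / (g : ℝ) ^ 2 := by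
  have hl2 : 0 < log 2 := Real.log_pos (by norm_num)
  have hgR : (3 : ℝ) ≤ g := by exact_mod_cast hg3
  have hg0 : (0 : ℝ) < g := by linarith
  have hm0 : (1 : ℝ) ≤ m := by exact_mod_cast hm1
  have hmgR : (m : ℝ) ≤ g := by exact_mod_cast hmg
  have hlg1 : 1 ≤ log (g : ℝ) := by
    rw [Real.le_log_iff_exp_le hg0]
    have := Real.exp_one_lt_d9
    linarith
  have hlg : 0 < log (g : ℝ) := by linarith
  set Y : ℝ := Real.sqrt (g / (m * log g)) with hY
  have hYsq : Y ^ 2 = g / (m * log g) := Real.sq_sqrt (by positivity)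
  have hY0 : 0 < Y := Real.sqrt_pos.mpr (by positivity)
  have hY4 : Y ^ 4 = (g : ℝ) ^ 2 / ((m : ℝ) ^ 2 * log g ^ 2) := by
    have : Y ^ 4 = (Y ^ 2) ^ 2 := by ring
    rw [this, hYsq, div_pow, mul_pow]
  have hY4' : (g : ℝ) * log 2 / (4 * log g ^ 3) ≤ Y ^ 4 := by
    rw [hY4, div_le_div_iff₀ (by positivity) (by positivity)]
    have h1 : (m : ℝ) ^ 2 * log 2 ≤ g * (4 * log g) := by
      have h2 := mul_le_mul_of_nonneg_right hm2 hl2.le
      have h3 : (g : ℝ) * (4 * log g / log 2) * log 2 = g * (4 * log g) := by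
        field_simp
      rwa [h3] at h2
    calc (g : ℝ) * log 2 * ((m : ℝ) ^ 2 * log g ^ 2) = g * log g ^ 2 * ((m : ℝ) ^ 2 * log 2) := by ring
      _ ≤ g * log g ^ 2 * (g * (4 * log g)) := by gcongr
      _ = (g : ℝ) ^ 2 * (4 * log g ^ 3) := by ring
  have hY24 : (2 : ℝ) ^ 168 * (g : ℝ) ^ 4 < Y ^ 24 := by
    have h1 : ((g : ℝ) * log 2 / (4 * log g ^ 3)) ^ 6 ≤ (Y ^ 4) ^ 6 := by gcongr
    have h2 : (Y ^ 4) ^ 6 = Y ^ 24 := by ring
    linarith
  -- `(Y / 128) ^ 6 > g`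
  have hY6 : (g : ℝ) < (Y / 128) ^ 6 := by
    have h1 : (g : ℝ) ^ 4 < ((Y / 128) ^ 6) ^ 4 := by
      have h2 : ((Y / 128) ^ 6) ^ 4 = Y ^ 24 / 2 ^ 168 := by
        rw [← pow_mul, div_pow]; norm_num
      rw [h2, lt_div_iff₀ (by positivity)]
      linarith
    exact lt_of_pow_lt_pow_left₀ 4 (by positivity) h1
  have hY128 : 1 < Y / 128 := by
    by_contra h
    rw [not_lt] at h
    have : (Y / 128) ^ 6 ≤ 1 := pow_le_one₀ (by positivity) h
    linarith
  set n : ℕ := ⌊Y / 64⌋₊ with hn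
  have hn1 : Y / 128 ≤ n := by
    have := Nat.lt_floor_add_one (Y / 64)
    rw [← hn] at this
    have h2 : Y / 64 = Y / 128 + Y / 128 := by ring
    linarith
  have hn2 : (n : ℝ) ≤ Y / 64 := Nat.floor_le (by positivity)
  have hn0 : (1 : ℝ) < n := by linarith
  have hn0' : 1 < n := by exact_mod_cast hn0
  have hgn : g < n ^ 6 := by
    have h1 : (g : ℝ) < (n : ℝ) ^ 6 := hY6.trans_le (by gcongr)
    exact_mod_cast h1
  obtain ⟨q, hq, hqg, hq1, hq2⟩ := exists_good_prime hn0'.le (by omega) hgn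
  have hqY : (q : ℝ) ≤ Y := by
    have h1 : (q : ℝ) ≤ 64 * n := by exact_mod_cast hq2
    linarith
  have hqn : (n : ℝ) ≤ (q : ℝ) - 1 := by
    have : (n : ℝ) + 1 ≤ q := by exact_mod_cast hq1
    linarith
  have hq0 : (0 : ℝ) < (q : ℝ) - 1 := by linarith
  have hq2' : q ≠ 2 := by omega
  have h := hN q hq hq2' hqg
  have hqsq : (q : ℝ) ^ 2 ≤ g / (m * log g) := by
    rw [← hYsq]
    have : (0 : ℝ) ≤ q := Nat.cast_nonneg q
    gcongr
  have hexp : exp (-(2 * g / (m * (q : ℝ) ^ 2))) ≤ 1 / (g : ℝ) ^ 2 := by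
    have h1 : 2 * log g ≤ 2 * g / (m * (q : ℝ) ^ 2) := by
      rw [le_div_iff₀ (by nlinarith)]
      rw [le_div_iff₀ (by positivity)] at hqsq
      nlinarith
    have h2 : exp (-(2 * log g)) = 1 / (g : ℝ) ^ 2 := by
      rw [Real.exp_neg, mul_comm, Real.exp_mul, Real.exp_log hg0, one_div]
      norm_cast
    rw [← h2]
    exact Real.exp_le_exp.mpr (by linarith)
  have hYg : Y ≤ g := by
    rw [hY]
    refine Real.sqrt_le_iff.mpr ⟨hg0.le, ?_⟩
    rw [div_le_iff₀ (by positivity)]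
    have : (1 : ℝ) ≤ m * log g := by nlinarith
    nlinarith
  have hbase : ((q : ℝ) - 1) * exp (-(2 * g / (m * (q : ℝ) ^ 2))) ≤ 1 / m := by
    calc ((q : ℝ) - 1) * exp (-(2 * g / (m * (q : ℝ) ^ 2))) ≤ g * (1 / (g : ℝ) ^ 2) := by
          gcongr
          linarith
      _ = 1 / g := by field_simp
      _ ≤ 1 / m := one_div_le_one_div_of_le (by linarith) hmgR
  have hnum : (1 + ((q : ℝ) - 1) * exp (-(2 * g / (m * (q : ℝ) ^ 2)))) ^ m ≤ exp 1 := by
    have h1 : 1 + ((q : ℝ) - 1) * exp (-(2 * g / (m * (q : ℝ) ^ 2))) ≤ exp (1 / m) := by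
      have := Real.add_one_le_exp (1 / (m : ℝ))
      linarith
    calc (1 + ((q : ℝ) - 1) * exp (-(2 * g / (m * (q : ℝ) ^ 2)))) ^ m ≤ (exp (1 / m)) ^ m := by
          have : 0 ≤ ((q : ℝ) - 1) * exp (-(2 * g / (m * (q : ℝ) ^ 2))) := by positivity
          gcongr
      _ = exp 1 := by
          rw [← Real.exp_nat_mul]
          congr 1
          field_simp
  have hden : (Y / 128) ^ 4 ≤ ((q : ℝ) - 1) ^ e := by
    calc (Y / 128) ^ 4 ≤ ((q : ℝ) - 1) ^ 4 := by gcongr; linarith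
      _ ≤ ((q : ℝ) - 1) ^ e := pow_le_pow_right₀ (by linarith) he4
  refine h.trans ?_
  calc (1 + ((q : ℝ) - 1) * exp (-(2 * g / (m * (q : ℝ) ^ 2)))) ^ m / ((q : ℝ) - 1) ^ e
      ≤ exp 1 / (Y / 128) ^ 4 := by
        apply div_le_div₀ (Real.exp_pos 1).le hnum (by positivity) hden
    _ = exp 1 * 128 ^ 4 * (m : ℝ) ^ 2 * log g ^ 2 / (g : ℝ) ^ 2 := by
        rw [div_pow, hY4]
        field_simp

theorem numeric : ∃ C : ℝ, 0 < C ∧ ∀ (ι : Type) [Fintype ι] (g : ℕ) (m k e : ι → ℕ) (N : ι → ℝ),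
    2 ≤ g → (∀ i, 1 ≤ m i) → (∀ i, 1 ≤ k i) → (∀ i, 4 ≤ e i) → (∀ i, m i ≤ k i * e i) →
    (∑ i, k i * m i ≤ g) →
    (∀ i, N i ≤ (2 : ℝ) ^ (-(e i : ℝ) / 2)) →
    (∀ (i) (q : ℕ), q.Prime → q ≠ 2 → ¬ q ∣ g →
      N i ≤ (1 + ((q : ℝ) - 1) * exp (-(2 * g / (m i * (q : ℝ) ^ 2)))) ^ m i
        / ((q : ℝ) - 1) ^ e i) →
    ∑ i, N i ≤ C * log g ^ 3 / g := by
  obtain ⟨g0, hg03, hlarge⟩ := eventually_large
  have hl2 : 0 < log 2 := Real.log_pos (by norm_num)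
  set K : ℝ := exp 1 * 128 ^ 4 with hK
  have hK0 : 0 < K := by positivity
  refine ⟨(g0 : ℝ) ^ 2 / log 2 ^ 3 + 1 + K * (4 / log 2), by positivity, ?_⟩
  intro ι _ g m k e N hg2 hm hk he hmke hsum hN1 hN2
  have hgR : (2 : ℝ) ≤ g := by exact_mod_cast hg2
  have hg0 : (0 : ℝ) < g := by linarith
  have hlg2 : log 2 ≤ log (g : ℝ) := Real.log_le_log (by norm_num) hgR
  have hlg : 0 < log (g : ℝ) := by linarith
  have hkm : ∀ i, k i * m i ≤ g := fun i =>
    (Finset.single_le_sum (f := fun i => k i * m i) (fun _ _ => Nat.zero_le _) (Finset.mem_univ i)).trans hsum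
  have hι : (Fintype.card ι : ℝ) ≤ g := by
    have h1 : ∑ _i : ι, 1 ≤ ∑ i, k i * m i :=
      Finset.sum_le_sum fun i _ => Nat.one_le_iff_ne_zero.mpr
        (Nat.mul_ne_zero (by have := hk i; omega) (by have := hm i; omega))
    rw [Finset.sum_const, Finset.card_univ, smul_eq_mul, mul_one] at h1
    exact_mod_cast h1.trans hsum
  rcases Nat.lt_or_ge g g0 with hgs | hgl
  · -- small values
    have h1 : ∑ i, N i ≤ g := by
      calc ∑ i, N i ≤ ∑ _i : ι, (1 : ℝ) := by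
            refine Finset.sum_le_sum fun i _ => (hN1 i).trans ?_
            apply Real.rpow_le_one_of_one_le_of_nonpos (by norm_num)
            have : (0 : ℝ) ≤ e i := Nat.cast_nonneg _
            linarith
        _ = Fintype.card ι := by simp
        _ ≤ g := hι
    refine h1.trans ?_
    have h2 : (g : ℝ) ≤ g0 := by exact_mod_cast hgs.le
    rw [le_div_iff₀ hg0]
    have h3 : (g : ℝ) * g ≤ (g0 : ℝ) ^ 2 := by nlinarith
    have h4 : (g0 : ℝ) ^ 2 ≤ (g0 : ℝ) ^ 2 / log 2 ^ 3 * log g ^ 3 := by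
      rw [div_mul_eq_mul_div, le_div_iff₀ (by positivity)]
      gcongr
    have h5 : 0 ≤ (1 + K * (4 / log 2)) * log (g : ℝ) ^ 3 := by positivity
    calc (g : ℝ) * g ≤ (g0 : ℝ) ^ 2 := h3
      _ ≤ (g0 : ℝ) ^ 2 / log 2 ^ 3 * log g ^ 3 := h4
      _ ≤ (g0 : ℝ) ^ 2 / log 2 ^ 3 * log g ^ 3 + (1 + K * (4 / log 2)) * log (g : ℝ) ^ 3 := by linarith
      _ = ((g0 : ℝ) ^ 2 / log 2 ^ 3 + 1 + K * (4 / log 2)) * log g ^ 3 := by ring
  · have hg3 : 3 ≤ g := hg03.trans hgl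
    have hgR3 : (3 : ℝ) ≤ g := by exact_mod_cast hg3
    have hlg1 : 1 ≤ log (g : ℝ) := by
      rw [Real.le_log_iff_exp_le hg0]
      have := Real.exp_one_lt_d9
      linarith
    have hL := hlarge g hgl
    set B : ℝ := 4 * log g / log 2 with hB
    have hterm : ∀ i, N i ≤ 1 / (g : ℝ) ^ 2 + K * log g ^ 2 / (g : ℝ) ^ 2 * (((k i * m i : ℕ) : ℝ) * B) := by
      intro i
      have hnn : 0 ≤ K * log g ^ 2 / (g : ℝ) ^ 2 * (((k i * m i : ℕ) : ℝ) * B) := by positivity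
      rcases le_or_gt B (e i) with hBe | hBe
      · have h1 : (2 : ℝ) ^ (-(e i : ℝ) / 2) ≤ 1 / (g : ℝ) ^ 2 := by
          have h2 : (2 : ℝ) ^ (-(e i : ℝ) / 2) ≤ (2 : ℝ) ^ (-B / 2) :=
            Real.rpow_le_rpow_of_exponent_le (by norm_num) (by linarith)
          refine h2.trans (le_of_eq ?_)
          rw [Real.rpow_def_of_pos (by norm_num)]
          have h3 : log 2 * (-B / 2) = -(2 * log g) := by
            rw [hB]; field_simp
            norm_num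
          rw [h3, Real.exp_neg, mul_comm, Real.exp_mul, Real.exp_log hg0, one_div]
          norm_cast
        linarith [hN1 i]
      · have hm2 : (m i : ℝ) ^ 2 ≤ ((k i * m i : ℕ) : ℝ) * B := by
          have h1 : (m i : ℝ) ≤ k i * e i := by exact_mod_cast hmke i
          have h2 : (0 : ℝ) ≤ m i := Nat.cast_nonneg _
          have h3 : (0 : ℝ) ≤ k i := Nat.cast_nonneg _
          push_cast
          calc (m i : ℝ) ^ 2 = m i * m i := by ring
            _ ≤ m i * (k i * e i) := by gcongr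
            _ ≤ m i * (k i * B) := by gcongr
            _ = (k i : ℝ) * m i * B := by ring
        have hkmR : ((k i * m i : ℕ) : ℝ) ≤ g := by exact_mod_cast hkm i
        have hB0 : 0 ≤ B := by positivity
        have hmg : m i ≤ g := by
          have h1 := hkm i
          have h2 : m i ≤ k i * m i := Nat.le_mul_of_pos_left _ (hk i)
          omega
        have h4 := one_term (N := N i) hg3 hL (hm i) hmg (he i)
          (hm2.trans (by gcongr)) (hN2 i)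
        have h5 : exp 1 * 128 ^ 4 * (m i : ℝ) ^ 2 * log g ^ 2 / (g : ℝ) ^ 2
            ≤ K * log g ^ 2 / (g : ℝ) ^ 2 * (((k i * m i : ℕ) : ℝ) * B) := by
          have e1 : exp 1 * 128 ^ 4 * (m i : ℝ) ^ 2 * log g ^ 2 / (g : ℝ) ^ 2
              = K * log g ^ 2 / (g : ℝ) ^ 2 * (m i : ℝ) ^ 2 := by
            rw [hK]; ring
          rw [e1]
          gcongr
        have h6 : (0 : ℝ) ≤ 1 / (g : ℝ) ^ 2 := by positivity
        linarith
    calc ∑ i, N i ≤ ∑ i, (1 / (g : ℝ) ^ 2 + K * log g ^ 2 / (g : ℝ) ^ 2 * (((k i * m i : ℕ) : ℝ) * B)) :=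
          Finset.sum_le_sum fun i _ => hterm i
      _ = Fintype.card ι * (1 / (g : ℝ) ^ 2)
          + K * log g ^ 2 / (g : ℝ) ^ 2 * (((∑ i, k i * m i : ℕ) : ℝ) * B) := by
          rw [Finset.sum_add_distrib, Finset.sum_const, Finset.card_univ, nsmul_eq_mul,
            ← Finset.mul_sum, ← Finset.sum_mul]
          push_cast
          rfl
      _ ≤ g * (1 / (g : ℝ) ^ 2) + K * log g ^ 2 / (g : ℝ) ^ 2 * (g * B) := by
          have h7 : ((∑ i, k i * m i : ℕ) : ℝ) ≤ g := by exact_mod_cast hsum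
          gcongr
      _ = (1 + K * (4 / log 2) * log g ^ 3) / g := by
          rw [hB]
          field_simp
      _ ≤ ((g0 : ℝ) ^ 2 / log 2 ^ 3 + 1 + K * (4 / log 2)) * log g ^ 3 / g := by
          have h8 : (1 : ℝ) ≤ log (g : ℝ) ^ 3 := one_le_pow₀ hlg1
          have h9 : 0 ≤ (g0 : ℝ) ^ 2 / log 2 ^ 3 * log (g : ℝ) ^ 3 := by positivity
          gcongr
          nlinarith

end Pool.Agent.Lib.MP_938ce2_ag_h85d
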