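import Mathlib
import Pool.Agent.Lib.MP_938ce2_ag_h67.Kern
import Pool.Agent.Lib.MP_938ce2_ag_h67.Bad
import Pool.Agent.Lib.MP_938ce2_ag_h88.M2
import Pool.Agent.Lib.MP_938ce2_ag_h88.M4
import Pool.Agent.Lib.MP_938ce2_ag_h88.Hall
import Pool.Agent.Lib.MP_938ce2_ag_h79.Even
import Pool.Agent.Lib.MP_938ce2_ag_h60.NumField
import Pool.Agent.Lib.MP_938ce2_ag_h85d.Assembly

/-!
Assembly of the theorem on CM fields with solvable Galois closure.
-/

set_option autoImplicit false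
set_option linter.unusedSectionVars false

namespace Pool.Agent.Lib.MP_938ce2_ag_h85d.U

open Finset Real Module MonoidAlgebra NumberField
open Pool.Agent.Lib.MP_938ce2_ag_h67 (sg VV badOf ev sum_eq_zero_of_simple
  exists_simple_of_bad mem_badOf type_ker_crude type_ker_refined smul_mkV)
open Pool.Agent.Lib.MP_938ce2_ag_h60 (CMType Nondeg GeneratedByDivisors
  generatedByDivisors_of_nondeg conj)
open Pool.Agent.Lib.MP_938ce2_ag_h85d (isotypic_numbers finrank_hom_le)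

section

variable {P Ω : Type} [Group P] [Fintype P] [Fintype Ω] [MulAction P Ω]

lemma nontriv_congr {M M' : Submodule (MonoidAlgebra ℚ P) (VV ℚ P Ω)}
    (e : M ≃ₗ[MonoidAlgebra ℚ P] M')
    (h : ∃ (σ : P) (s : M), MonoidAlgebra.single σ (1 : ℚ) • s ≠ s) :
    ∃ (σ : P) (s : M'), MonoidAlgebra.single σ (1 : ℚ) • s ≠ s := by
  obtain ⟨σ, s, hs⟩ := h
  refine ⟨σ, e s, fun h' => hs ?_⟩
  rw [← map_smul] at h'
  exact e.injective h'

lemma card_dvd_of_transitive [MulAction.IsPretransitive P Ω] [Nonempty Ω] :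
    Fintype.card Ω ∣ Fintype.card P := by
  obtain ⟨x₀⟩ := (inferInstance : Nonempty Ω)
  have h1 := MulAction.index_stabilizer_of_transitive P x₀
  rw [Nat.card_eq_fintype_card] at h1
  rw [← h1, ← Nat.card_eq_fintype_card]
  exact Subgroup.index_dvd_card _

end

/-- the numerical input: `NumericU CM η g₀` -/
def NumericU (CM : ℕ → ℝ) (η : ℝ) (g₀ : ℕ) : Prop :=
  ∀ (ι : Type) [Fintype ι] (g : ℕ) (m k n d : ι → ℕ) (N : ι → ℝ), g₀ ≤ g →
    (∀ i, m i = n i * d i) → (∀ i, 1 ≤ k i) → (∀ i, k i ≤ n i) → (∀ i, Odd (n i)) →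
    (∀ i, 2 ≤ d i) → (∀ i, Even (d i)) → (∀ i, 4 ≤ m i) → (∑ i, k i * m i ≤ g) →
    (∀ i, N i ≤ (1 + 2 * (2 : ℝ) ^ (-((g : ℝ) / m i))) ^ m i
      / ((3 : ℝ) ^ (m i - k i * d i) * 2 ^ d i)) →
    (∀ i, k i = 1 → N i ≤ 1 / 2 ^ m i) →
    (∀ (i) (q : ℕ), q.Prime → q ≠ 2 → ¬ q ∣ g → d i * (n i - k i) + d i < q →
      N i ≤ (1 + ((q : ℝ) - 1) * Real.exp (-(2 * g / (m i * (q : ℝ) ^ 2)))) ^ m i
        / ((q : ℝ) - 1) ^ (d i * (n i - k i) + d i)) →
    (∀ (i) (q : ℕ), q.Prime → q ≠ 2 → ¬ q ∣ g → d i * (n i - k i) + d i < q → m i * q ^ 2 ≤ g →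
      N i ≤ (1 + 3 * Real.exp (-(g / (m i * (q : ℝ) ^ 2)))) ^ m i
        / ((q : ℝ) - 1) ^ (d i * (n i - k i) + d i)) →
    (∀ (i) (M : ℕ), d i * (n i - k i) + d i = 2 → m i < M →
      N i ≤ CM M * (g : ℝ) ^ (-(5 / 4) : ℝ)) →
    ∑ i, N i ≤ η

/-- the input for the representations with an imaginary quadratic field of endomorphisms -/
def SmallU (CM : ℕ → ℝ) : Prop :=
  ∀ (P : Type) [Group P] [Fintype P] (Ω : Type) [Fintype Ω] [DecidableEq Ω] [MulAction P Ω]
    [MulAction.IsPretransitive P Ω] (_ : (Fintype.card P).Coprime 6)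
    (S : Submodule (MonoidAlgebra ℚ P) (VV ℚ P Ω)) [IsSimpleModule (MonoidAlgebra ℚ P) S]
    (_ : ∃ (σ : P) (s : S), MonoidAlgebra.single σ (1 : ℚ) • s ≠ s) (M : ℕ),
    finrank ℚ (S →ₗ[MonoidAlgebra ℚ P] S) = 2 →
    finrank ℚ (S →ₗ[MonoidAlgebra ℚ P] VV ℚ P Ω) = finrank ℚ S →
    finrank ℚ S < M →
    ((badOf S).card : ℝ) / 2 ^ Fintype.card Ω ≤ CM M * (Fintype.card Ω : ℝ) ^ (-(5 / 4) : ℝ)

/-- the count of the degenerate subsets -/
def BadU (η : ℝ) (g₀ : ℕ) : Prop :=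
  ∀ (P : Type) [Group P] [Fintype P] (Ω : Type) [Fintype Ω] [DecidableEq Ω] [MulAction P Ω]
    [MulAction.IsPretransitive P Ω], (Fintype.card P).Coprime 6 → g₀ ≤ Fintype.card Ω →
    1 ≤ Fintype.card Ω →
    (Nat.card {η : Finset Ω // ∃ f : Ω → ℤ, f ≠ 0 ∧ ∀ σ : P, ∑ x, sg η x * f (σ • x) = 0} : ℝ)
      ≤ η * 2 ^ Fintype.card Ω

theorem bad_of {CM : ℕ → ℝ} {η : ℝ} {g₀ : ℕ} (hnum : NumericU CM η g₀) (hsm : SmallU CM) :
    BadU η g₀ := by
  intro P _ _ Ω _ _ _ _ hcop hg₀ hΩ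
  classical
  have hne : Nonempty Ω := by
    rw [← Fintype.card_pos_iff]
    omega
  have hPodd : Odd (Fintype.card P) := by
    rw [← Nat.not_even_iff_odd, even_iff_two_dvd]
    intro h
    have := Nat.dvd_gcd h (show 2 ∣ 6 by norm_num)
    rw [hcop] at this
    norm_num at this
  have h3P : ¬ 3 ∣ Fintype.card P := by
    intro h
    have := Nat.dvd_gcd h (show 3 ∣ 6 by norm_num)
    rw [hcop] at this
    norm_num at this
  have hΩodd : Odd (Fintype.card Ω) :=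
    Odd.of_dvd_nat hPodd card_dvd_of_transitive
  have hneP : NeZero (Nat.card P : ℚ) := ⟨by exact_mod_cast Nat.card_pos.ne'⟩
  obtain ⟨ι, _, S, k, hS, hall, hk1, hkδ, hsum⟩ :=
    isotypic_numbers (K := ℚ) (R := MonoidAlgebra ℚ P) (V := VV ℚ P Ω)
  set g := Fintype.card Ω with hg
  have hV : finrank ℚ (VV ℚ P Ω) = g := by
    show finrank ℚ (Ω → ℚ) = g
    rw [finrank_fintype_fun_eq_card]
  let κ : Type := {i : ι // ∃ (σ : P) (s : S i), MonoidAlgebra.single σ (1 : ℚ) • s ≠ s}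
  let m : κ → ℕ := fun i => finrank ℚ (S i.1)
  let δ : κ → ℕ := fun i => finrank ℚ (S i.1 →ₗ[MonoidAlgebra ℚ P] S i.1)
  let h : κ → ℕ := fun i => finrank ℚ (S i.1 →ₗ[MonoidAlgebra ℚ P] VV ℚ P Ω)
  have hhm : ∀ i, h i ≤ m i := fun i => finrank_hom_le (S i.1)
  have hhk : ∀ i, h i = k i.1 * δ i := fun i => hkδ i.1
  have hfin : ∀ i : ι, Module.Finite ℚ (S i) := fun i =>
    Module.Finite.of_injective ((S i).subtype.restrictScalars ℚ) Subtype.val_injective
  have hm1 : ∀ i, 1 ≤ m i := by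
    intro i
    have hs := hS i.1
    have hnt : Nontrivial (S i.1) := IsSimpleModule.nontrivial (MonoidAlgebra ℚ P) (S i.1)
    have := hfin i.1
    exact Module.finrank_pos
  have hn : ∀ i : κ, ∃ n : ℕ, Odd n ∧ m i = n * δ i := by
    intro i
    have hs := hS i.1
    have := hfin i.1
    exact Pool.Agent.Lib.MP_938ce2_ag_h88.exists_odd_mul_finrank_end (P := P) (S := S i.1) hPodd
  choose n hnodd hnm using hn
  have hδ0 : ∀ i, 1 ≤ δ i := by
    intro i
    rcases Nat.eq_zero_or_pos (δ i) with h0 | h0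
    · have h1 := hnm i
      rw [h0, mul_zero] at h1
      have h2 := hm1 i
      omega
    · exact h0
  have hδeven : ∀ i, Even (δ i) := by
    intro i
    have hs := hS i.1
    have := hfin i.1
    refine Pool.Agent.Lib.MP_938ce2_ag_h79.even_finrank_end (P := P) (S := S i.1) hPodd
      fun v => ?_
    have h1 := Pool.Agent.Lib.MP_938ce2_ag_h67.nrm_smul_eq_zero i.2 v
    unfold Pool.Agent.Lib.MP_938ce2_ag_h67.nrm at h1
    rwa [Finset.sum_smul] at h1
  have hδ2 : ∀ i, 2 ≤ δ i := by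
    intro i
    obtain ⟨a, ha⟩ := hδeven i
    have := hδ0 i
    omega
  have hm4 : ∀ i, 4 ≤ m i := by
    intro i
    have hs := hS i.1
    have := hfin i.1
    exact Pool.Agent.Lib.MP_938ce2_ag_h79.four_le_finrank (P := P) (S := S i.1) hcop i.2
  have hkn : ∀ i : κ, k i.1 ≤ n i := by
    intro i
    have h1 := hhm i
    rw [hhk i, hnm i] at h1
    exact Nat.le_of_mul_le_mul_right h1 (hδ0 i)
  have he : ∀ i : κ, δ i + m i - h i = δ i * (n i - k i.1) + δ i := by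
    intro i
    have h1 := hkn i
    have h2 := hhm i
    rw [hhk i, hnm i] at *
    obtain ⟨b, hb⟩ := Nat.exists_eq_add_of_le h1
    rw [hb, Nat.add_sub_cancel_left]
    have h3 : δ i + (k i.1 + b) * δ i = δ i * b + δ i + k i.1 * δ i := by ring
    rw [h3, Nat.add_sub_cancel]
  let N : κ → ℝ := fun i => ((badOf (S i.1)).card : ℝ) / 2 ^ g
  have hmain := hnum κ g m (fun i => k i.1) n δ N hg₀ hnm (fun i => hk1 i.1) hkn hnodd hδ2 hδeven
    hm4
    (by
      have h1 : ∑ i : κ, k i.1 * m i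
          = ∑ i ∈ (Finset.univ : Finset κ).map ⟨Subtype.val, Subtype.val_injective⟩,
            k i * finrank ℚ (S i) := by
        rw [Finset.sum_map]
        rfl
      rw [← hV]
      refine le_trans ?_ hsum
      refine le_trans (le_of_eq h1) ?_
      exact Finset.sum_le_univ_sum_of_nonneg (fun _ => Nat.zero_le _))
    (fun i => by
      have h1 := Pool.Agent.Lib.MP_938ce2_ag_h88.type_three (S i.1) h3P (hm1 i) (hhm i)
      rw [← hhk i]
      exact h1)
    (fun i hi => by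
      have hs := hS i.1
      refine Pool.Agent.Lib.MP_938ce2_ag_h88.type_once (S i.1) ?_ ?_
      · have h1 := hhk i
        rw [hi, one_mul] at h1
        exact h1
      · intro v hv
        exact sum_eq_zero_of_simple (S i.1) i.2 v hv)
    (fun i q hq hq2 hqg hqe => by
      rw [← he i] at hqe ⊢
      exact type_ker_crude (S i.1) q hq hq2 hqg (hm1 i) (hhm i) hqe)
    (fun i q hq hq2 hqg hqe hmq => by
      rw [← he i] at hqe ⊢
      exact type_ker_refined (S i.1) q hq hq2 hqg (hm1 i) (hhm i) hqe hmq)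
    (fun i M hi hM => by
      have hs := hS i.1
      have h1 : δ i = 2 := by
        have := hδ2 i
        have h3 : 0 ≤ δ i * (n i - k i.1) := Nat.zero_le _
        omega
      have h2 : n i - k i.1 = 0 := by
        rw [h1] at hi
        omega
      have h3 : k i.1 = n i := le_antisymm (hkn i) (Nat.sub_eq_zero_iff_le.mp h2)
      refine hsm P Ω hcop (S i.1) i.2 M h1 ?_ hM
      have h4 := hhk i
      rw [h3, ← hnm i] at h4
      exact h4)
  have hcover : (Nat.card {η : Finset Ω // ∃ f : Ω → ℤ, f ≠ 0 ∧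
      ∀ σ : P, ∑ x, sg η x * f (σ • x) = 0} : ℝ) ≤ ∑ i : κ, ((badOf (S i.1)).card : ℝ) := by
    rw [Nat.card_eq_fintype_card, Fintype.card_subtype]
    have h1 : (Finset.univ.filter fun η : Finset Ω => ∃ f : Ω → ℤ, f ≠ 0 ∧
        ∀ σ : P, ∑ x, sg η x * f (σ • x) = 0)
        ⊆ (Finset.univ : Finset κ).biUnion fun i => badOf (S i.1) := by
      intro η hη
      obtain ⟨f, hf, hσ⟩ := (Finset.mem_filter.mp hη).2
      obtain ⟨M, hM, hnt, hv⟩ := exists_simple_of_bad hΩodd η f hf hσ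
      obtain ⟨i, ⟨e⟩⟩ := hall M hM
      rw [Finset.mem_biUnion]
      refine ⟨⟨i, nontriv_congr e hnt⟩, Finset.mem_univ _, ?_⟩
      rw [mem_badOf]
      exact ⟨M, ⟨e.symm⟩, hv⟩
    have h2 := (Finset.card_le_card h1).trans Finset.card_biUnion_le
    exact_mod_cast h2
  refine hcover.trans ?_
  have h1 : ∑ i : κ, ((badOf (S i.1)).card : ℝ) = (∑ i : κ, N i) * 2 ^ g := by
    rw [Finset.sum_mul]
    refine Finset.sum_congr rfl fun i _ => ?_
    show _ = ((badOf (S i.1)).card : ℝ) / 2 ^ g * 2 ^ g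
    rw [div_mul_cancel₀]
    positivity
  rw [h1]
  exact mul_le_mul_of_nonneg_right hmain (by positivity)

end Pool.Agent.Lib.MP_938ce2_ag_h85d.U
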