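import Mathlib
import Pool.Agent.Lib.MP_938ce2_ag_h85d.AssemblyU

/-!
From the count of degenerate subsets to the theorem on CM fields with solvable Galois closure.
-/

set_option autoImplicit false
set_option linter.unusedSectionVars false

namespace Pool.Agent.Lib.MP_938ce2_ag_h85d.U

open Finset Real Module NumberField
open Pool.Agent.Lib.MP_938ce2_ag_h67 (sg)
open Pool.Agent.Lib.MP_938ce2_ag_h60 (CMType Nondeg GeneratedByDivisors
  generatedByDivisors_of_nondeg conj)
open Pool.Agent.Lib.MP_938ce2_ag_h85d (sum_type_orbit)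

section Pairs

variable {Γ X : Type} [Group Γ] [Finite Γ] [MulAction Γ X] [Finite X]

/-- a subgroup of index prime to the number of pairs is transitive on the pairs -/
theorem transitive_pairs (htr : ∀ x y : X, ∃ γ : Γ, γ • x = y) (c : Γ)
    (hcc : ∀ γ : Γ, c * γ = γ * c) (hc2 : c * c = 1) (hcx : ∀ x : X, c • x ≠ x) (g : ℕ)
    (hX : Nat.card X = 2 * g) (H : Subgroup Γ) (hcop : Nat.Coprime g H.index) (x y : X) :
    ∃ h ∈ H, h • x = y ∨ h • x = c • y := by
  classical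
  have hT : MulAction.IsPretransitive Γ X := ⟨htr⟩
  have hcs : ∀ (γ : Γ) (z : X), γ • c • z = c • γ • z := by
    intro γ z
    rw [← mul_smul, ← hcc, mul_smul]
  have hcc' : ∀ z : X, c • c • z = z := fun z => by rw [← mul_smul, hc2, one_smul]
  let S : Subgroup Γ :=
    { carrier := {γ | γ • x = x ∨ γ • x = c • x}
      one_mem' := Or.inl (one_smul _ _)
      mul_mem' := by
        rintro a b (ha | ha) (hb | hb)
        · exact Or.inl (by rw [mul_smul, hb, ha])
        · exact Or.inr (by rw [mul_smul, hb, hcs, ha])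
        · exact Or.inr (by rw [mul_smul, hb, ha])
        · exact Or.inl (by rw [mul_smul, hb, hcs, ha, hcc'])
      inv_mem' := by
        rintro a (ha | ha)
        · exact Or.inl (by rw [inv_smul_eq_iff, ha])
        · exact Or.inr (by rw [inv_smul_eq_iff, hcs, ha, hcc']) }
  have hmS : ∀ γ : Γ, γ ∈ S ↔ γ • x = x ∨ γ • x = c • x := fun γ => Iff.rfl
  have hle : MulAction.stabilizer Γ x ≤ S := fun γ hγ => Or.inl hγ
  have hrel : (MulAction.stabilizer Γ x).relIndex S = 2 := by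
    rw [Subgroup.relIndex_eq_two_iff]
    refine ⟨c, Or.inr rfl, fun b hb => ?_⟩
    rw [MulAction.mem_stabilizer_iff, MulAction.mem_stabilizer_iff, mul_smul, hcs]
    rcases hb with hb | hb
    · refine Or.inr ⟨hb, ?_⟩
      rw [hb]
      exact hcx x
    · refine Or.inl ⟨?_, ?_⟩
      · rw [hb, hcc']
      · rw [hb]
        exact hcx x
  have hidx : S.index = g := by
    have h1 := Subgroup.relIndex_mul_index hle
    rw [hrel, MulAction.index_stabilizer_of_transitive, hX] at h1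
    omega
  obtain ⟨γ, hγ⟩ := htr x y
  have hfin : Finite (Γ ⧸ S) := inferInstance
  obtain ⟨h, hH, hh⟩ := Pool.Agent.Lib.MP_938ce2_ag_h88.transitive_of_coprime_index
    (G := Γ) (X := Γ ⧸ S) (fun a b => MulAction.exists_smul_eq Γ a b) H (by
      show Nat.Coprime S.index H.index
      rw [hidx]
      exact hcop) ((1 : Γ) : Γ ⧸ S) ((γ : Γ) : Γ ⧸ S)
  have h1 : ((h * 1 : Γ) : Γ ⧸ S) = ((γ : Γ) : Γ ⧸ S) := hh
  rw [mul_one, QuotientGroup.eq, hmS] at h1
  refine ⟨h, hH, ?_⟩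
  rcases h1 with h1 | h1
  · left
    rw [mul_smul, inv_smul_eq_iff, hγ] at h1
    exact h1.symm
  · right
    rw [mul_smul, inv_smul_eq_iff, hγ, hcs] at h1
    rw [h1, hcc']

/-- a solvable group of even degree `2g`, `g` prime to 6, contains a subgroup of order prime to 6
which is transitive on the pairs -/
theorem exists_transitive (hsol : Group.IsSolvable Γ) (htr : ∀ x y : X, ∃ γ : Γ, γ • x = y) (c : Γ)
    (hcc : ∀ γ : Γ, c * γ = γ * c) (hc2 : c * c = 1) (hcx : ∀ x : X, c • x ≠ x) (g : ℕ)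
    (hX : Nat.card X = 2 * g) (hg : g.Coprime 6) :
    ∃ P : Subgroup Γ, (Nat.card P).Coprime 6 ∧
      ∀ x y : X, ∃ σ ∈ P, σ • x = y ∨ σ • x = c • y := by
  obtain ⟨H, h1, h2⟩ := Pool.Agent.Lib.MP_938ce2_ag_h88.exists_hall
    (fun p => p ≠ 2 ∧ p ≠ 3) Γ
  refine ⟨H, ?_, ?_⟩
  · rw [Nat.coprime_comm]
    refine Nat.Coprime.mul_left (m := 2) (n := 3) ?_ ?_
    · rw [Nat.Prime.coprime_iff_not_dvd Nat.prime_two]
      intro h
      exact (h1 2 Nat.prime_two h).1 rfl
    · rw [Nat.Prime.coprime_iff_not_dvd Nat.prime_three]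
      intro h
      exact (h1 3 Nat.prime_three h).2 rfl
  · refine transitive_pairs htr c hcc hc2 hcx g hX H ?_
    rw [Nat.coprime_iff_gcd_eq_one]
    by_contra hne
    obtain ⟨p, hp, hpd⟩ := Nat.exists_prime_and_dvd hne
    have hpg : p ∣ g := hpd.trans (Nat.gcd_dvd_left _ _)
    have hpH : p ∣ H.index := hpd.trans (Nat.gcd_dvd_right _ _)
    have h3 := h2 p hp hpH
    have h4 : p = 2 ∨ p = 3 := by
      by_contra h5
      push Not at h5
      exact h3 h5
    have h6 : p ∣ 6 := by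
      rcases h4 with rfl | rfl <;> norm_num
    have h7 := Nat.dvd_gcd hpg h6
    rw [hg] at h7
    exact hp.one_lt.ne' (Nat.dvd_one.mp h7)

end Pairs

section Act

variable {Γ X : Type} [Group Γ] [MulAction Γ X]

/-- an element of odd order does not exchange conjugate points -/
lemma ne_conj' (c : Γ) (hc2 : c * c = 1) (hcx : ∀ x : X, c • x ≠ x)
    (P : Type) [Group P] [Finite P] [MulAction P X] (hodd : Odd (Nat.card P))
    (hPc : ∀ (σ : P) (x : X), σ • c • x = c • σ • x) (σ : P) (y : X) : σ • y ≠ c • y := by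
  intro h
  have h2 : (σ ^ 2) • y = y := by
    rw [pow_two, mul_smul, h, hPc, h, ← mul_smul, hc2, one_smul]
  obtain ⟨s, hs⟩ := hodd
  have hpow : σ ^ Nat.card P = 1 := pow_card_eq_one'
  have hσs : σ = (σ ^ 2) ^ (s + 1) := by
    rw [← pow_mul]
    have : 2 * (s + 1) = Nat.card P + 1 := by omega
    rw [this, pow_succ, hpow, one_mul]
  have hfix : ∀ k : ℕ, ((σ ^ 2) ^ k) • y = y := by
    intro k
    induction k with
    | zero => simp
    | succ k ih => rw [pow_succ, mul_smul, h2, ih]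
  have h4 : σ • y = y := by
    nth_rewrite 1 [hσs]
    exact hfix _
  rw [h] at h4
  exact hcx y h4

end Act

theorem main_U {η : ℝ} {g₀ : ℕ} (hC : BadU η g₀) (Γ X : Type) [Group Γ] [Fintype Γ]
    [MulAction Γ X] [Fintype X] (c : Γ) (g : ℕ) (P : Type) [Group P] [Finite P] [MulAction P X]
    (hPΓ : ∀ σ : P, ∃ γ : Γ, ∀ x : X, σ • x = γ • x)
    (hcc : ∀ γ : Γ, c * γ = γ * c) (hc2 : c * c = 1) (hcx : ∀ x : X, c • x ≠ x)
    (hX : Fintype.card X = 2 * g) (hg : 1 ≤ g) (hg₀ : g₀ ≤ g)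
    (hcop : (Nat.card P).Coprime 6)
    (htr : ∀ x y : X, ∃ σ : P, σ • x = y ∨ σ • x = c • y) :
    (Nat.card {Φ : Finset X // CMType c Φ ∧ ¬ GeneratedByDivisors Γ Φ} : ℝ) ≤ η * 2 ^ g := by
  classical
  have hne : Nonempty X := by
    rw [← Fintype.card_pos_iff]
    omega
  obtain ⟨x0⟩ := hne
  have hodd : Odd (Nat.card P) := by
    have h2 : (Nat.card P).Coprime 2 := Nat.Coprime.coprime_dvd_right (by norm_num) hcop
    exact Nat.coprime_two_right.mp h2
  have hPc : ∀ (σ : P) (x : X), σ • c • x = c • σ • x := by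
    intro σ x
    obtain ⟨γ, hγ⟩ := hPΓ σ
    rw [hγ, hγ, ← mul_smul, ← mul_smul, hcc]
  set O : Set X := MulAction.orbit P x0 with hO
  have hO2 : ∀ x, x ∈ O ∨ c • x ∈ O := by
    intro x
    obtain ⟨σ, h | h⟩ := htr x0 x
    · exact Or.inl ⟨σ, h⟩
    · exact Or.inr ⟨σ, h⟩
  have hO1 : ∀ x ∈ O, c • x ∉ O := by
    rintro x ⟨a, ha⟩ ⟨b, hb⟩
    have ha' : a • x0 = x := ha
    have hb' : b • x0 = c • x := hb
    refine ne_conj' c hc2 hcx P hodd hPc (b * a⁻¹) x ?_
    rw [mul_smul, ← ha', inv_smul_smul, hb', ← ha']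
  have hFO : Fintype O := Fintype.ofFinite _
  have hcardO : Fintype.card O = g := by
    have h1 : Fintype.card O + Fintype.card O = Fintype.card X := by
      rw [← Fintype.card_sum]
      refine Fintype.card_congr
        { toFun := fun s => Sum.elim (fun x : O => (x : X)) (fun x : O => c • (x : X)) s
          invFun := fun x => if h : x ∈ O then Sum.inl ⟨x, h⟩ else
            Sum.inr ⟨c • x, (hO2 x).resolve_left h⟩
          left_inv := ?_
          right_inv := ?_ }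
      · rintro (x | x)
        · simp
        · have hx : c • (x : X) ∉ O := hO1 x x.2
          simp only [Sum.elim_inr, hx, dif_neg, not_false_iff]
          congr 1
          apply Subtype.ext
          change c • c • (x : X) = x
          rw [← mul_smul, hc2, one_smul]
      · intro x
        by_cases h : x ∈ O
        · simp [h]
        · simp only [h, dif_neg, not_false_iff, Sum.elim_inr]
          rw [← mul_smul, hc2, one_smul]
    omega
  have hFP : Fintype P := Fintype.ofFinite _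
  have hcopF : (Fintype.card P).Coprime 6 := by
    rw [← Nat.card_eq_fintype_card]; exact hcop
  have hbc := hC P O hcopF (by rw [hcardO]; exact hg₀) (by rw [hcardO]; exact hg)
  rw [hcardO] at hbc
  refine le_trans ?_ hbc
  have hinj : Function.Injective (fun Φ : {Φ : Finset X // CMType c Φ ∧ ¬ GeneratedByDivisors Γ Φ} =>
      (⟨univ.filter fun ω : O => (ω : X) ∈ Φ.1, by
        have hnd : ¬ Nondeg c Φ.1 := fun h =>
          Φ.2.2 (generatedByDivisors_of_nondeg hcc hc2 hcx Φ.2.1 h)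
        unfold Nondeg at hnd
        push Not at hnd
        obtain ⟨h, hodd', hsum, x1, hx1⟩ := hnd
        refine ⟨fun ω => h ω, ?_, fun σ => ?_⟩
        · intro h0
          have hz : ∀ ω : O, h ω = 0 := fun ω => congrFun h0 ω
          rcases hO2 x1 with hx | hx
          · exact hx1 (hz ⟨x1, hx⟩)
          · have := hz ⟨c • x1, hx⟩
            apply hx1
            change h (c • x1) = 0 at this
            rw [hodd'] at this
            omega
        · obtain ⟨γ, hγ⟩ := hPΓ σ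
          have h1 := sum_type_orbit c hc2 O hO1 hO2 Φ.2.1 (fun x => h (γ • x)) (fun x => by
            change h (γ • c • x) = - h (γ • x)
            rw [← mul_smul, ← hcc, mul_smul, hodd'])
          rw [hsum] at h1
          refine Eq.trans (Finset.sum_congr rfl fun x _ => ?_) h1.symm
          change _ * h (σ • (x : X)) = _
          rw [hγ]⟩ :
        {η : Finset O // ∃ f : O → ℤ, f ≠ 0 ∧ ∀ σ : P, ∑ x, sg η x * f (σ • x) = 0})) := by
    intro Φ Ψ h
    apply Subtype.ext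
    have h1 : (univ.filter fun ω : O => (ω : X) ∈ Φ.1) = univ.filter fun ω : O => (ω : X) ∈ Ψ.1 :=
      congrArg Subtype.val h
    have h2 : ∀ ω : O, (ω : X) ∈ Φ.1 ↔ (ω : X) ∈ Ψ.1 := by
      intro ω
      have := Finset.ext_iff.mp h1 ω
      simpa using this
    ext x
    rcases hO2 x with hx | hx
    · exact h2 ⟨x, hx⟩
    · rw [Φ.2.1 x, Ψ.2.1 x]
      exact not_congr (h2 ⟨c • x, hx⟩)
  exact_mod_cast Nat.card_le_card_of_injective _ hinj

/-- a free transitive group on `2g` points, `g` odd, with a central fixed point free involution: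
there is a subgroup of order `g`, transitive on the pairs -/
theorem exists_complement {Γ X : Type} [Group Γ] [Finite Γ] [MulAction Γ X] [Finite X]
    (htr : ∀ x y : X, ∃ γ : Γ, γ • x = y) (c : Γ)
    (hcc : ∀ γ : Γ, c * γ = γ * c) (hc2 : c * c = 1) (hcx : ∀ x : X, c • x ≠ x) (g : ℕ)
    (hX : Nat.card X = 2 * g) (hΓ : Nat.card Γ = 2 * g) (hg : g.Coprime 6) (hg1 : 1 ≤ g) :
    ∃ P : Subgroup Γ, (Nat.card P).Coprime 6 ∧
      ∀ x y : X, ∃ σ ∈ P, σ • x = y ∨ σ • x = c • y := by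
  classical
  have hne : Nonempty X := by
    rw [← Finite.card_pos_iff]
    omega
  obtain ⟨x0⟩ := hne
  have hc1 : c ≠ 1 := by
    rintro rfl
    exact hcx x0 (one_smul _ _)
  have hord : orderOf c = 2 := by
    have : Fact (Nat.Prime 2) := ⟨Nat.prime_two⟩
    exact orderOf_eq_prime (by rw [pow_two, hc2]) hc1
  have hNn : (Subgroup.zpowers c).Normal := by
    refine ⟨fun n hn γ => ?_⟩
    obtain ⟨i, rfl⟩ := Subgroup.mem_zpowers_iff.mp hn
    have h1 : Commute c γ := hcc γ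
    have h2 : γ * c ^ i * γ⁻¹ = c ^ i := by
      rw [← (h1.zpow_left i).eq, mul_inv_cancel_right]
    rw [h2]
    exact hn
  have hNc : Nat.card (Subgroup.zpowers c) = 2 := by rw [Nat.card_zpowers, hord]
  have hNi : (Subgroup.zpowers c).index = g := by
    have h1 := Subgroup.card_mul_index (Subgroup.zpowers c)
    rw [hNc, hΓ] at h1
    omega
  have hg2 : Nat.Coprime 2 g := (Nat.Coprime.coprime_dvd_right (by norm_num) hg).symm
  obtain ⟨P, hP⟩ := Subgroup.exists_right_complement'_of_coprime (N := Subgroup.zpowers c) (by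
    rw [hNc, hNi]
    exact hg2)
  have hcardP : Nat.card P = g := by
    have h1 := hP.card_mul_card
    rw [hNc, hΓ] at h1
    omega
  have hidx : P.index = 2 := by
    have h1 := Subgroup.card_mul_index P
    rw [hcardP, hΓ] at h1
    have h2 : g * P.index = g * 2 := by rw [h1, mul_comm]
    exact Nat.eq_of_mul_eq_mul_left (by omega) h2
  refine ⟨P, ?_, ?_⟩
  · rw [hcardP]
    exact hg
  · refine transitive_pairs htr c hcc hc2 hcx g hX P ?_
    rw [hidx]
    exact hg2.symm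

/-- the image of a group in the permutations -/
abbrev Img (Γ X : Type) [Group Γ] [MulAction Γ X] : Subgroup (Equiv.Perm X) :=
  (MulAction.toPermHom Γ X).range

/-- the theorem for CM fields with solvable Galois closure, from the two inputs -/
theorem result_of {CM : ℕ → ℝ} (hnum : ∀ η : ℝ, 0 < η → ∃ g₀ : ℕ, NumericU CM η g₀)
    (hsm : SmallU CM) :
    ∀ η : ℝ, 0 < η → ∃ g₀ : ℕ, ∀ (L E : Type) [Field L] [NumberField L] [IsGalois ℚ L]
      [IsCMField L] [Field E] [NumberField E] [IsCMField E] [Nonempty (E →ₐ[ℚ] L)] (g : ℕ),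
      finrank ℚ E = 2 * g → g₀ ≤ g →
      ((g.Coprime 6 ∧ (Group.IsSolvable (L ≃ₐ[ℚ] L) ∨ IsGalois ℚ E)) ∨
        ∃ P : Subgroup (L ≃ₐ[ℚ] L), (Nat.card P).Coprime 6 ∧
          ∀ φ ψ : E →ₐ[ℚ] L, ∃ σ ∈ P, σ • φ = ψ ∨ σ • φ = conj L • ψ) →
      (Nat.card {Φ : Finset (E →ₐ[ℚ] L) //
          CMType (conj L) Φ ∧ ¬ GeneratedByDivisors (L ≃ₐ[ℚ] L) Φ} : ℝ) ≤ η * 2 ^ g := by
  intro η hη
  obtain ⟨g₀, hg₀⟩ := hnum η hη
  have hC := bad_of hg₀ hsm
  refine ⟨g₀, ?_⟩
  intro L E _ _ _ _ _ _ _ _ g hE hgg h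
  have hX : Fintype.card (E →ₐ[ℚ] L) = 2 * g := by
    rw [← hE]
    exact Pool.Agent.Lib.MP_938ce2_ag_h60.card_emb
  have hcx : ∀ φ : E →ₐ[ℚ] L, conj L • φ ≠ φ := fun φ =>
    Pool.Agent.Lib.MP_938ce2_ag_h60.conj_smul_ne φ
  have hg1 : 1 ≤ g := by
    have : 0 < finrank ℚ E := finrank_pos
    omega
  have htrans : ∀ φ ψ : E →ₐ[ℚ] L, ∃ γ : L ≃ₐ[ℚ] L, γ • φ = ψ := fun φ ψ =>
    Pool.Agent.Lib.MP_938ce2_ag_h60.exists_smul_emb φ ψ
  have hP : (IsGalois ℚ E ∧ g.Coprime 6) ∨ ∃ P : Subgroup (L ≃ₐ[ℚ] L), (Nat.card P).Coprime 6 ∧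
      ∀ φ ψ : E →ₐ[ℚ] L, ∃ σ ∈ P, σ • φ = ψ ∨ σ • φ = conj L • ψ := by
    rcases h with ⟨hg6, hsol | hgal⟩ | h
    · exact Or.inr (exists_transitive hsol htrans
        (conj L) Pool.Agent.Lib.MP_938ce2_ag_h60.conj_comm
        Pool.Agent.Lib.MP_938ce2_ag_h60.conj_mul_self hcx g
        (by rw [Nat.card_eq_fintype_card, hX]) hg6)
    · exact Or.inl ⟨hgal, hg6⟩
    · exact Or.inr h
  rcases hP with ⟨hgal, hg6⟩ | ⟨P, hcop, htr⟩
  · -- the image of the Galois group acts freely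
    obtain ⟨ι₀⟩ := (inferInstance : Nonempty (E →ₐ[ℚ] L))
    have hfree : ∀ (σ : L ≃ₐ[ℚ] L) (φ : E →ₐ[ℚ] L), σ • φ = φ → ∀ ψ : E →ₐ[ℚ] L, σ • ψ = ψ := by
      intro σ φ hσ ψ
      have hcard : Fintype.card (E ≃ₐ[ℚ] E) = Fintype.card (E →ₐ[ℚ] L) := by
        rw [hX, ← hE, ← Nat.card_eq_fintype_card]
        exact IsGalois.card_aut_eq_finrank ℚ E
      have hinj : Function.Injective (fun τ : E ≃ₐ[ℚ] E => φ.comp (τ : E →ₐ[ℚ] E)) := by
        intro τ τ' hττ
        apply AlgEquiv.ext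
        intro x
        apply φ.injective
        exact DFunLike.congr_fun hττ x
      have hbij := (Fintype.bijective_iff_injective_and_card _).mpr ⟨hinj, hcard⟩
      obtain ⟨τ, hτ⟩ := hbij.2 ψ
      have hτ' : φ.comp (τ : E →ₐ[ℚ] E) = ψ := hτ
      rw [← hτ']
      apply AlgHom.ext
      intro x
      have h1 := DFunLike.congr_fun hσ (τ x)
      exact h1
    let Q := Img (L ≃ₐ[ℚ] L) (E →ₐ[ℚ] L)
    have hFQ : Fintype Q := Fintype.ofFinite _
    let c' : Q := ⟨MulAction.toPermHom _ _ (conj L), ⟨conj L, rfl⟩⟩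
    have hc' : ∀ φ : E →ₐ[ℚ] L, c' • φ = conj L • φ := fun φ => rfl
    have hQ : ∀ q : Q, ∃ γ : L ≃ₐ[ℚ] L, ∀ φ : E →ₐ[ℚ] L, q • φ = γ • φ := by
      rintro ⟨_, γ, rfl⟩
      exact ⟨γ, fun φ => rfl⟩
    have hext : ∀ a b : Q, (∀ φ : E →ₐ[ℚ] L, a • φ = b • φ) → a = b := by
      intro a b h
      apply Subtype.ext
      apply Equiv.ext
      exact h
    have htrQ : ∀ φ ψ : E →ₐ[ℚ] L, ∃ q : Q, q • φ = ψ := by
      intro φ ψ
      obtain ⟨γ, hγ⟩ := htrans φ ψ
      exact ⟨⟨MulAction.toPermHom _ _ γ, ⟨γ, rfl⟩⟩, hγ⟩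
    have hccQ : ∀ q : Q, c' * q = q * c' := by
      intro q
      obtain ⟨γ, hγ⟩ := hQ q
      refine hext _ _ fun φ => ?_
      rw [mul_smul, mul_smul, hc', hc', hγ, hγ, ← mul_smul, ← mul_smul,
        Pool.Agent.Lib.MP_938ce2_ag_h60.conj_comm]
    have hc2Q : c' * c' = 1 := by
      refine hext _ _ fun φ => ?_
      rw [mul_smul, hc', hc', ← mul_smul, Pool.Agent.Lib.MP_938ce2_ag_h60.conj_mul_self, one_smul,
        one_smul]
    have hcardQ : Nat.card Q = 2 * g := by
      have hb : Function.Bijective (fun q : Q => q • ι₀) := by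
        constructor
        · intro a b hab
          have hab' : a • ι₀ = b • ι₀ := hab
          have h1 : (b⁻¹ * a) • ι₀ = ι₀ := by rw [mul_smul, hab', inv_smul_smul]
          obtain ⟨γ, hγ⟩ := hQ (b⁻¹ * a)
          rw [hγ] at h1
          have h2 : b⁻¹ * a = 1 := hext _ _ fun φ => by rw [hγ, hfree γ ι₀ h1 φ, one_smul]
          exact (inv_mul_eq_one.mp h2).symm
        · intro ψ
          exact htrQ ι₀ ψ
      rw [Nat.card_congr (Equiv.ofBijective _ hb), Nat.card_eq_fintype_card, hX]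
    obtain ⟨P, hcop, htr⟩ := exists_complement htrQ c' hccQ hc2Q (fun φ => by rw [hc']; exact hcx φ) g
      (by rw [Nat.card_eq_fintype_card, hX]) hcardQ hg6 hg1
    exact main_U hC (L ≃ₐ[ℚ] L) (E →ₐ[ℚ] L) (conj L) g P (fun σ => hQ σ)
      Pool.Agent.Lib.MP_938ce2_ag_h60.conj_comm
      Pool.Agent.Lib.MP_938ce2_ag_h60.conj_mul_self hcx hX hg1 hgg hcop (fun x y => by
        obtain ⟨σ, hσ, h⟩ := htr x y
        exact ⟨⟨σ, hσ⟩, h⟩)
  · exact main_U hC (L ≃ₐ[ℚ] L) (E →ₐ[ℚ] L) (conj L) g P (fun σ => ⟨σ, fun x => rfl⟩)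
      Pool.Agent.Lib.MP_938ce2_ag_h60.conj_comm
      Pool.Agent.Lib.MP_938ce2_ag_h60.conj_mul_self hcx hX hg1 hgg hcop (fun x y => by
        obtain ⟨σ, hσ, h⟩ := htr x y
        exact ⟨⟨σ, hσ⟩, h⟩)

end Pool.Agent.Lib.MP_938ce2_ag_h85d.U
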