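import Mathlib
import Pool.Agent.Lib.MP_938ce2_ag_h85d.MainU
import Pool.Agent.Lib.MP_938ce2_ag_h88.M7

/-!
The theorem on CM fields with solvable Galois closure, from the count for representations of bounded
dimension with an imaginary quadratic field of endomorphisms.
-/

set_option autoImplicit false
set_option linter.unusedSectionVars false

namespace Pool.Agent.Lib.MP_938ce2_ag_h85d.U

open Finset Real Module NumberField
open Pool.Agent.Lib.MP_938ce2_ag_h67 (VV badOf)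
open Pool.Agent.Lib.MP_938ce2_ag_h60 (CMType GeneratedByDivisors conj)

theorem numericU_holds (CM : ℕ → ℝ) (η : ℝ) (hη : 0 < η) : ∃ g₀ : ℕ, NumericU CM η g₀ := by
  obtain ⟨g₀, h⟩ := Pool.Agent.Lib.MP_938ce2_ag_h88.numericU (fun m => CM (m + 1)) η hη
  refine ⟨g₀, ?_⟩
  intro ι _ g m k n d N hg hm hk hkn hn hd hde _ hsum ha hb hf hf' hg2
  refine h ι g m k n d N hg hm hk hkn hn hd hde hsum ha hb hf ?_ ?_
  · intro i q hq hq2 hqg hqe hmq
    refine hf' i q hq hq2 hqg hqe ?_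
    exact_mod_cast hmq
  · intro i hi
    exact hg2 i (m i + 1) hi (Nat.lt_succ_self _)

/-- the count for representations of bounded dimension with an imaginary quadratic field of
endomorphisms -/
def SmallTypes : Prop :=
  ∀ M₀ : ℕ, ∃ C : ℝ, 0 < C ∧ ∀ (P Ω : Type) [Group P] [Fintype P] [Fintype Ω] [DecidableEq Ω]
    [MulAction P Ω] [MulAction.IsPretransitive P Ω]
    (M : Submodule (MonoidAlgebra ℚ P) (VV ℚ P Ω)) [IsSimpleModule (MonoidAlgebra ℚ P) M],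
    (Fintype.card P).Coprime 6 → 1 ≤ Fintype.card Ω → finrank ℚ M ≤ M₀ →
    finrank ℚ (M →ₗ[MonoidAlgebra ℚ P] M) = 2 →
    finrank ℚ (M →ₗ[MonoidAlgebra ℚ P] VV ℚ P Ω) = finrank ℚ M →
    ((badOf M).card : ℝ) / 2 ^ Fintype.card Ω ≤ C * (Fintype.card Ω : ℝ) ^ (-(5 / 4 : ℝ))

theorem smallU_holds (h : SmallTypes) : ∃ CM : ℕ → ℝ, SmallU CM := by
  choose CM _ hCM using h
  refine ⟨CM, ?_⟩
  intro P _ _ Ω _ _ _ _ hcop S _ _ M h2 hκ hM
  have hΩ : 1 ≤ Fintype.card Ω := by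
    by_contra h0
    have h1 : IsEmpty Ω := by
      rw [← Fintype.card_eq_zero_iff]
      omega
    have hnt : Nontrivial S := IsSimpleModule.nontrivial (MonoidAlgebra ℚ P) S
    obtain ⟨a, b, hab⟩ := hnt
    apply hab
    apply Subtype.ext
    apply Pool.Agent.Lib.MP_938ce2_ag_h67.ev_ext
    intro x
    exact h1.elim x
  exact hCM M P Ω S hcop hΩ hM.le h2 hκ

/-- the theorem for CM fields with solvable Galois closure -/
theorem result_of_small (h : SmallTypes) :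
    ∀ η : ℝ, 0 < η → ∃ g₀ : ℕ, ∀ (L E : Type) [Field L] [NumberField L] [IsGalois ℚ L]
      [IsCMField L] [Field E] [NumberField E] [IsCMField E] [Nonempty (E →ₐ[ℚ] L)] (g : ℕ),
      finrank ℚ E = 2 * g → g₀ ≤ g →
      ((g.Coprime 6 ∧ (Group.IsSolvable (L ≃ₐ[ℚ] L) ∨ IsGalois ℚ E)) ∨
        ∃ P : Subgroup (L ≃ₐ[ℚ] L), (Nat.card P).Coprime 6 ∧
          ∀ φ ψ : E →ₐ[ℚ] L, ∃ σ ∈ P, σ • φ = ψ ∨ σ • φ = conj L • ψ) →
      (Nat.card {Φ : Finset (E →ₐ[ℚ] L) //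
          CMType (conj L) Φ ∧ ¬ GeneratedByDivisors (L ≃ₐ[ℚ] L) Φ} : ℝ) ≤ η * 2 ^ g := by
  obtain ⟨CM, hCM⟩ := smallU_holds h
  exact result_of (fun η hη => numericU_holds CM η hη) hCM

end Pool.Agent.Lib.MP_938ce2_ag_h85d.U
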