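import Mathlib
import Pool.Agent.Lib.MP_938ce2_ag_nf.One
import Pool.Agent.Lib.MP_938ce2_ag_h85d.Assembly

/-!
The theorem for CM fields of degree `2 p ^ k`, in terms of number fields.
-/

set_option autoImplicit false

namespace Pool.Agent.Lib.MP_938ce2_ag_h85d

open Finset Real NumberField
open Pool.Agent.Lib.MP_938ce2_ag_h60 (CMType GeneratedByDivisors)
open Pool.Agent.Lib.MP_938ce2_ag_nf.One (Emb galGroup IsCMType)

theorem prime_power_of {C : ℝ} (hC : BadCount C) (E : Type) [Field E] [NumberField E] [IsCMField E]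
    (p k : ℕ) (hp : p.Prime) (hp5 : 5 ≤ p) (hk : 1 ≤ k) (hE : Module.finrank ℚ E = 2 * p ^ k) :
    (Nat.card {Φ : Finset (Emb E) // IsCMType E Φ ∧ ¬ GeneratedByDivisors (galGroup E) Φ} : ℝ)
      ≤ C * log (p ^ k : ℕ) ^ 3 / (p ^ k : ℕ) * 2 ^ (p ^ k) := by
  obtain ⟨c, hc, hcc, hc2, hcx⟩ := Pool.Agent.Lib.MP_938ce2_ag_nf.One.conj_data E
  have h1 := main_prime_power_of hC (galGroup E) (Emb E) c p k hp hp5 hk hcc hc2 hcx
    (by rw [Pool.Agent.Lib.MP_938ce2_ag_nf.One.card_emb, hE])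
  have h2 : ∀ Φ : Finset (Emb E), CMType c Φ ↔ IsCMType E Φ := by
    intro Φ
    unfold CMType IsCMType
    refine forall_congr' fun φ => ?_
    rw [hc]
  simp_rw [h2] at h1
  exact h1

end Pool.Agent.Lib.MP_938ce2_ag_h85d
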